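import Pool.Agent.R205.DI.Homeo
/-!
# Interpolation sets for distal systems: an arithmetic criterion

A set `S` of natural numbers (for example the set of primes) is an interpolation set for distal
systems if and only if there are no positive integers `x_0, x_1, …` such that for every `k`
infinitely many translates of the set of all sums of `x_0, …, x_{k-1}` (the empty sum included) are
contained in `S`.
-/
namespace Pool.Agent.Results.MP_ff27c1_an.ArithmeticCriterion
open Set Filter Topology Pool.Agent.R205.DI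

/-- the homeomorphism `T` is distal: for all `x ≠ y` the distances `d (T^n x, T^n y)`, `n ∈ ℤ`, are
bounded below by a positive number. -/
def IsDistal {X : Type} [MetricSpace X] (T : X ≃ₜ X) : Prop :=
  ∀ x y : X, x ≠ y → ∃ ε : ℝ, 0 < ε ∧ ∀ n : ℕ,
    ε ≤ dist ((⇑T)^[n] x) ((⇑T)^[n] y) ∧ ε ≤ dist ((⇑T.symm)^[n] x) ((⇑T.symm)^[n] y)

/-- every bounded function on `S` is of the form `n ↦ F (T^n x)`, for some distal homeomorphism `T`
of a compact metric space, point `x` and continuous function `F`. -/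
def IsInterpolationSet (S : Set ℕ) : Prop :=
  ∀ f : S → ℂ, (∃ B : ℝ, ∀ n : S, ‖f n‖ ≤ B) →
    ∃ (X : Type) (_ : MetricSpace X) (_ : CompactSpace X) (T : X ≃ₜ X), IsDistal T ∧
      ∃ (x : X) (F : X → ℂ), Continuous F ∧ ∀ n : S, F ((⇑T)^[n] x) = f n

theorem isInterpolationSet_iff (S : Set ℕ) : IsInterpolationSet S ↔
    ∀ f : S → ℂ, (∃ B : ℝ, ∀ n : S, ‖f n‖ ≤ B) → ∃ ψ : ℕ → ℂ, IsD ψ ∧ ∀ n : S, ψ n = f n := by
  constructor
  · intro h f hf
    obtain ⟨X, iM, iC, T, h1, x, F, h2, h3⟩ := h f hf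
    exact ⟨fun n => F ((⇑T)^[n] x), (isD_iff_homeo _).2 ⟨X, iM, iC, T, h1, x, F, h2, fun n => rfl⟩,
      h3⟩
  · intro h f hf
    obtain ⟨ψ, h1, h2⟩ := h f hf
    obtain ⟨X, iM, iC, T, h3, x, F, h4, h5⟩ := (isD_iff_homeo ψ).1 h1
    exact ⟨X, iM, iC, T, h3, x, F, h4, fun n => by rw [← h5, h2]⟩

theorem int_of_isInterpolationSet {E : Set ℕ} (h : IsInterpolationSet E) : Int01 E := by
  rw [isInterpolationSet_iff] at h
  intro f hf
  obtain ⟨ψ, h1, h2⟩ := h (fun n => (f n : ℂ)) ⟨1, fun n => by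
    rw [Complex.norm_real, Real.norm_eq_abs, abs_of_nonneg (hf n).1]
    exact (hf n).2⟩
  refine ⟨fun n => (ψ n).re, h1.comp Complex.continuous_re, fun n hn => ?_⟩
  simp only
  rw [h2 ⟨n, hn⟩]
  simp

theorem isInterpolationSet_of_int {E : Set ℕ} (h : Int01 E) : IsInterpolationSet E := by
  classical
  rw [isInterpolationSet_iff]
  rintro f ⟨B, hB⟩
  obtain ⟨B', hB'0, hB'⟩ : ∃ B' : ℝ, 0 < B' ∧ ∀ n : E, ‖f n‖ ≤ B' :=
    ⟨max B 1, by positivity, fun n => (hB n).trans (le_max_left _ _)⟩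
  have key : ∀ g : E → ℝ, (∀ n, |g n| ≤ B') → ∃ ψ : ℕ → ℝ, IsD ψ ∧ ∀ n : E, ψ n = g n := by
    intro g hg
    obtain ⟨ψ, h1, h2⟩ := h (fun n => if hn : n ∈ E then (g ⟨n, hn⟩ + B') / (2 * B') else 0) (by
      intro n
      split_ifs with hn
      · have := abs_le.1 (hg ⟨n, hn⟩)
        constructor
        · apply div_nonneg <;> linarith
        · rw [div_le_one (by positivity)]
          linarith
      · exact ⟨le_rfl, zero_le_one⟩)
    refine ⟨fun n => 2 * B' * ψ n - B', h1.comp (G := fun t : ℝ => 2 * B' * t - B') (by fun_prop),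
      fun n => ?_⟩
    simp only
    rw [h2 n n.2, dif_pos n.2]
    field_simp
    ring
  obtain ⟨ψ₁, h1, h2⟩ := key (fun n => (f n).re) fun n => (Complex.abs_re_le_norm _).trans (hB' n)
  obtain ⟨ψ₂, h3, h4⟩ := key (fun n => (f n).im) fun n => (Complex.abs_im_le_norm _).trans (hB' n)
  refine ⟨fun n => (ψ₁ n : ℂ) + (ψ₂ n : ℂ) * Complex.I, ?_, fun n => ?_⟩
  · exact h1.map2 h3 (G := fun s t : ℝ => (s : ℂ) + (t : ℂ) * Complex.I) (by fun_prop)
  · simp only
    rw [h2, h4, Complex.re_add_im]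

/-- A set `S ⊆ ℕ` is an interpolation set for distal systems if and only if there are no positive
integers `x_0, x_1, …` such that for every `k` there are infinitely many `m` for which all the
numbers `m + ∑_{i ∈ t} x_i`, `t ⊆ {0, …, k-1}`, lie in `S`. -/
theorem result (S : Set ℕ) : IsInterpolationSet S ↔
    ¬ ∃ x : ℕ → ℕ, (∀ i, 0 < x i) ∧
      ∀ k, {m : ℕ | ∀ t ⊆ Finset.range k, m + ∑ i ∈ t, x i ∈ S}.Infinite := by
  have h1 : IsInterpolationSet S ↔ Int01 S :=
    ⟨int_of_isInterpolationSet, isInterpolationSet_of_int⟩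
  rw [h1, int_iff]
  rfl

end Pool.Agent.Results.MP_ff27c1_an.ArithmeticCriterion
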